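import Pool.Agent.X330.MT.Fun

/-!
# MP_eb4e27_co, Q1: the monotone triangle polynomial at a prefix-repeated bottom row

`α(n + i; 1, …, i, 1, …, n) = A_n` for all `n` and `0 ≤ i ≤ n`.
-/

namespace Pool.Agent.Results.MP_eb4e27_co.PrefixRepeat

open MvPolynomial Pool.Agent.X144.MT Pool.Agent.X287.MTRing Pool.Agent.X287.MTFun
  Pool.Agent.X287.MTAl Pool.Agent.X330.MT

/-- The entry number `t` (counted from `0`) of the sequence `1, ..., i, 1, ..., n`. -/
def pre (i t : ℕ) : ℤ := if t < i then (t : ℤ) + 1 else (t : ℤ) - i + 1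

theorem inc_getElem (m : ℕ) : ∀ (p : ℤ) (t : ℕ) (h : t < (inc p m).length),
    (inc p m)[t] = p + t := by
  induction m with
  | zero => intro p t h; simp [inc] at h
  | succ m ih =>
    intro p t h
    cases t with
    | zero => simp [inc]
    | succ t =>
      simp only [inc, List.getElem_cons_succ]
      rw [ih]
      push_cast; ring

theorem ofFn_pre (i n : ℕ) :
    List.ofFn (fun t : Fin (n + i) => pre i t) = inc 1 i ++ inc 1 n := by
  apply List.ext_getElem
  · simp [inc_len]; ring
  · intro t h1 h2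
    rw [List.getElem_ofFn]
    simp only [List.length_ofFn] at h1
    by_cases ht : t < i
    · rw [List.getElem_append_left (by rw [inc_len]; exact ht), inc_getElem]
      simp only [pre]
      rw [if_pos ht]
      ring
    · rw [List.getElem_append_right (by rw [inc_len]; omega), inc_getElem]
      obtain ⟨s, rfl⟩ := Nat.exists_eq_add_of_le (not_lt.1 ht)
      simp only [inc_len, Nat.add_sub_cancel_left, pre]
      rw [if_neg ht]
      push_cast; ring

theorem ofFn_inc (n : ℕ) : List.ofFn (fun t : Fin n => ((t : ℕ) : ℤ) + 1) = inc 1 n := by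
  apply List.ext_getElem
  · simp [inc_len]
  · intro t h1 h2
    rw [List.getElem_ofFn, inc_getElem]
    simp only
    ring

theorem inc_eq_iv (m : ℕ) : ∀ p : ℤ, inc p m = iv p m := by
  induction m with
  | zero => intro p; rfl
  | succ m ih => intro p; rw [inc, iv, ih]

/-- **Main result.**  For every `n ≥ 1` there is exactly one polynomial that counts the monotone
triangles with a given strictly increasing bottom row of length `n`; and for all `n ≥ 1` and
`0 ≤ i ≤ n` the value of the polynomial for rows of length `n + i` at `1, 2, ..., i, 1, 2, ..., n`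
is the value of the polynomial for rows of length `n` at `1, 2, ..., n`, that is, the number of
alternating sign matrices of size `n`. -/
theorem result :
    (∀ n : ℕ, ∃! P : MvPolynomial (Fin (n + 1)) ℚ, IsAlpha P) ∧
    ∀ (n i : ℕ), 1 ≤ n → i ≤ n →
      ∀ (P : MvPolynomial (Fin n) ℚ) (Q : MvPolynomial (Fin (n + i)) ℚ),
        IsAlpha P → IsAlpha Q →
        eval (fun t : Fin (n + i) => (pre i t : ℚ)) Q
          = eval (fun t : Fin n => ((t : ℕ) : ℚ) + 1) P ∧
        eval (fun t : Fin (n + i) => (pre i t : ℚ)) Q = numASM n := by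
  refine ⟨existsUnique_alpha, ?_⟩
  intro n i hn hi P Q hP hQ
  have key : F (inc 1 i ++ inc 1 n) = F (inc 1 n) := by
    obtain ⟨r, rfl⟩ := Nat.exists_eq_add_of_le hi
    exact F_prefix i r
  -- the left side
  have hQ' : eval (fun t : Fin (n + i) => (pre i t : ℚ)) Q = (F (inc 1 i ++ inc 1 n) : ℚ) := by
    obtain ⟨N, hN⟩ : ∃ N, n + i = N + 1 := ⟨n + i - 1, by omega⟩
    have gen : ∀ (m : ℕ) (_ : m = N + 1) (Q : MvPolynomial (Fin m) ℚ) (_ : IsAlpha Q),
        eval (fun t : Fin m => (pre i t : ℚ)) Q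
          = (F (List.ofFn (fun t : Fin m => pre i t)) : ℚ) := by
      intro m hm Q hQ
      subst hm
      rw [hQ.eval_eq (fun t => pre i t), F, List.length_ofFn]
    rw [gen _ hN Q hQ, ofFn_pre]
  have hP' : eval (fun t : Fin n => ((t : ℕ) : ℚ) + 1) P = (F (inc 1 n) : ℚ) := by
    obtain ⟨N, hN⟩ : ∃ N, n = N + 1 := ⟨n - 1, by omega⟩
    have gen : ∀ (m : ℕ) (_ : m = N + 1) (P : MvPolynomial (Fin m) ℚ) (_ : IsAlpha P),
        eval (fun t : Fin m => ((t : ℕ) : ℚ) + 1) P
          = (F (List.ofFn (fun t : Fin m => ((t : ℕ) : ℤ) + 1)) : ℚ) := by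
      intro m hm P hP
      subst hm
      have e := hP.eval_eq (fun t => ((t : ℕ) : ℤ) + 1)
      push_cast at e
      rw [e, F, List.length_ofFn]
    rw [gen _ hN P hP, ofFn_inc]
  have hA : (F (inc 1 n) : ℚ) = numASM n := by
    have h := ncard_ASM n
    rw [F, inc_len, inc_eq_iv]
    change ((An n : ℤ) : ℚ) = _
    rw [← h]
    rfl
  exact ⟨by rw [hQ', hP', key], by rw [hQ', key, hA]⟩

end Pool.Agent.Results.MP_eb4e27_co.PrefixRepeat
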